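import Pool.Agent.W500.CS.Stm

/-!
# Project CQ, part STRIP: points of non-differentiability in a thin sector
-/

set_option autoImplicit false

open MeasureTheory Metric Set Filter Topology
open scoped ComplexConjugate

namespace Pool.Agent.W446.CQ.STRIP

open Pool.Agent.W500.CS

noncomputable section

/-! ## The map `Gm` -/

theorem hasDerivAt_Gm (κ φ₀ q φ : ℝ) :
    HasDerivAt (fun t : ℝ => Gm κ φ₀ q t) ((κ + Complex.I) * Gm κ φ₀ q φ) φ := by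
  unfold Gm
  have h0 : HasDerivAt (fun t : ℝ => (t : ℂ)) 1 φ := Complex.ofRealCLM.hasDerivAt
  have h1 : HasDerivAt (fun t : ℝ => (κ : ℂ) * ((t : ℂ) - φ₀) + Complex.I * t)
      (κ * 1 + Complex.I * 1) φ := by
    exact ((h0.sub_const (φ₀ : ℂ)).const_mul (κ : ℂ)).add (h0.const_mul Complex.I)
  have h2 := (h1.cexp).const_mul (q : ℂ)
  refine h2.congr_deriv ?_
  ring

theorem Gm_ne (κ φ₀ q φ : ℝ) (hq : q ≠ 0) : Gm κ φ₀ q φ ≠ 0 := by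
  unfold Gm
  exact mul_ne_zero (by exact_mod_cast hq) (Complex.exp_ne_zero _)

/-- polar coordinates -/
theorem Gm_polar (κ φ₀ x φ : ℝ) :
    Gm κ φ₀ (x * Real.exp (-κ * (φ - φ₀))) φ = (x : ℂ) * Complex.exp (Complex.I * φ) := by
  unfold Gm
  push_cast
  rw [mul_assoc, ← Complex.exp_add]
  congr 2
  ring

/-- near a point of the open strip everything is in the strip -/
theorem strip_open (κ φ₀ q φ δ ε : ℝ) (hq : q ∈ Ioo 0 ε) (hφ : |φ - φ₀| < δ) :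
    ∀ᶠ s in 𝓝 (Gm κ φ₀ q φ), ∃ q' ∈ Ioo 0 ε, ∃ φ' ∈ Icc (φ₀ - δ) (φ₀ + δ), s = Gm κ φ₀ q' φ' := by
  set s₀ := Gm κ φ₀ q φ with hs₀
  have hs0 : s₀ ≠ 0 := Gm_ne κ φ₀ q φ hq.1.ne'
  have hlog : ContinuousAt (fun s : ℂ => Complex.log (s / s₀)) s₀ := by
    have h1 : ContinuousAt (fun s : ℂ => s / s₀) s₀ := by fun_prop
    refine ContinuousAt.comp (g := Complex.log) ?_ h1
    simp only [div_self hs0]
    exact continuousAt_clog (by simp)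
  have hre : ContinuousAt (fun s : ℂ => q * Real.exp ((Complex.log (s / s₀)).re
      - κ * (Complex.log (s / s₀)).im)) s₀ := by
    have h1 : ContinuousAt (fun s : ℂ => (Complex.log (s / s₀)).re) s₀ :=
      Complex.continuous_re.continuousAt.comp hlog
    have h2 : ContinuousAt (fun s : ℂ => (Complex.log (s / s₀)).im) s₀ :=
      Complex.continuous_im.continuousAt.comp hlog
    fun_prop
  have him : ContinuousAt (fun s : ℂ => φ + (Complex.log (s / s₀)).im) s₀ := by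
    have h2 : ContinuousAt (fun s : ℂ => (Complex.log (s / s₀)).im) s₀ :=
      Complex.continuous_im.continuousAt.comp hlog
    fun_prop
  have e1 : q * Real.exp ((Complex.log (s₀ / s₀)).re - κ * (Complex.log (s₀ / s₀)).im) = q := by
    rw [div_self hs0]; simp
  have e2 : φ + (Complex.log (s₀ / s₀)).im = φ := by
    rw [div_self hs0]; simp
  have h3 : ∀ᶠ s in 𝓝 s₀, q * Real.exp ((Complex.log (s / s₀)).re
      - κ * (Complex.log (s / s₀)).im) ∈ Ioo 0 ε := by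
    apply hre
    beta_reduce
    rw [e1]
    exact isOpen_Ioo.mem_nhds hq
  have h4 : ∀ᶠ s in 𝓝 s₀, φ + (Complex.log (s / s₀)).im ∈ Icc (φ₀ - δ) (φ₀ + δ) := by
    apply him
    beta_reduce
    rw [e2]
    rw [abs_lt] at hφ
    exact Icc_mem_nhds (by linarith) (by linarith)
  have h5 : ∀ᶠ s in 𝓝 s₀, s ≠ 0 := isOpen_ne.mem_nhds hs0
  filter_upwards [h3, h4, h5] with s hs3 hs4 hs5
  refine ⟨_, hs3, _, hs4, ?_⟩
  have hdiv : s / s₀ ≠ 0 := div_ne_zero hs5 hs0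
  have key : s = s₀ * Complex.exp (Complex.log (s / s₀)) := by
    rw [Complex.exp_log hdiv]
    field_simp
  conv_lhs => rw [key, ← Complex.re_add_im (Complex.log (s / s₀))]
  rw [hs₀]
  unfold Gm
  rw [mul_assoc, ← Complex.exp_add]
  push_cast
  rw [mul_assoc (q : ℂ), ← Complex.exp_add]
  congr 2
  ring

/-! ## Analyticity along a germ -/

theorem germ_analytic (κ φ₀ : ℝ) (Φ : ℝ → ℝ) (hΦ : AnalyticAt ℝ Φ 0) :
    AnalyticAt ℝ (fun q : ℝ => Complex.exp ((κ : ℂ) * ((Φ q : ℂ) - φ₀) + Complex.I * (Φ q : ℂ))) 0 := by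
  have h1 : AnalyticAt ℝ (fun q : ℝ => ((Φ q : ℝ) : ℂ)) 0 :=
    (Complex.ofRealCLM.analyticAt _).comp hΦ
  have h2 : AnalyticAt ℝ (fun q : ℝ => (κ : ℂ) * ((Φ q : ℂ) - φ₀) + Complex.I * (Φ q : ℂ)) 0 :=
    (analyticAt_const.mul (h1.sub analyticAt_const)).add (analyticAt_const.mul h1)
  exact (analyticAt_cexp.restrictScalars (𝕜 := ℝ)).comp h2

theorem Gm_germ_analytic (κ φ₀ : ℝ) (Φ : ℝ → ℝ) (hΦ : AnalyticAt ℝ Φ 0) :
    AnalyticAt ℝ (fun q : ℝ => Gm κ φ₀ q (Φ q)) 0 := by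
  unfold Gm
  exact (Complex.ofRealCLM.analyticAt _).mul (germ_analytic κ φ₀ Φ hΦ)

theorem Gm_zero (κ φ₀ φ : ℝ) : Gm κ φ₀ 0 φ = 0 := by
  unfold Gm; simp

theorem Gm_germ_deriv (κ φ₀ : ℝ) (Φ : ℝ → ℝ) (hΦ : AnalyticAt ℝ Φ 0) :
    deriv (fun q : ℝ => Gm κ φ₀ q (Φ q)) 0 ≠ 0 := by
  have h1 : HasDerivAt (fun q : ℝ => (q : ℂ)) 1 0 := Complex.ofRealCLM.hasDerivAt
  have h2 := (germ_analytic κ φ₀ Φ hΦ).differentiableAt.hasDerivAt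
  have h3 := h1.mul h2
  have h4 : deriv (fun q : ℝ => Gm κ φ₀ q (Φ q)) 0 =
      Complex.exp ((κ : ℂ) * ((Φ 0 : ℂ) - φ₀) + Complex.I * (Φ 0 : ℂ)) := by
    have h5 : (fun q : ℝ => Gm κ φ₀ q (Φ q)) = (fun q : ℝ => (q : ℂ)) *
        fun q : ℝ => Complex.exp ((κ : ℂ) * ((Φ q : ℂ) - φ₀) + Complex.I * (Φ q : ℂ)) := by
      funext q; rfl
    rw [h5, h3.deriv]
    simp
  rw [h4]
  exact Complex.exp_ne_zero _

/-! ## Primitives -/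

theorem exists_prim (r : ℕ) (R : ℝ) (B : Fin r → ℂ → ℂ)
    (hB : ∀ i, DifferentiableOn ℂ (B i) (ball 0 R)) :
    ∃ h : Fin r → ℂ → ℂ, (∀ i, h i 0 = 0) ∧
      ∀ i, ∀ s ∈ ball (0 : ℂ) R, HasDerivAt (h i) (B i s) s := by
  have := fun i => (hB i).isExactOn_ball.with_val_at 0 0
  choose h h1 h2 using this
  exact ⟨h, h1, h2⟩

/-! ## Pairs -/

/-- Where the two functions agree a third one is larger. -/
def BadAt {r : ℕ} (h : Fin r → ℂ → ℂ) (κ φ₀ δ' : ℝ) (J : Finset (Fin r)) (i j : Fin r)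
    (q : ℝ) : Prop :=
  ∀ φ ∈ Icc (φ₀ - δ') (φ₀ + δ'), (h i (Gm κ φ₀ q φ)).re = (h j (Gm κ φ₀ q φ)).re →
    ∃ k ∈ J, (h i (Gm κ φ₀ q φ)).re < (h k (Gm κ φ₀ q φ)).re

/-- The two functions agree along a germ, where they are maximal. -/
def GoodAt {r : ℕ} (h : Fin r → ℂ → ℂ) (κ φ₀ δ δ' : ℝ) (J : Finset (Fin r)) (i j : Fin r)
    (Φ : ℝ → ℝ) (q : ℝ) : Prop :=
  |Φ q - φ₀| < δ ∧ (h i (Gm κ φ₀ q (Φ q))).re = (h j (Gm κ φ₀ q (Φ q))).re ∧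
    (∀ k ∈ J, (h k (Gm κ φ₀ q (Φ q))).re ≤ (h i (Gm κ φ₀ q (Φ q))).re) ∧
    ∀ φ ∈ Icc (φ₀ - δ') (φ₀ + δ'), (h i (Gm κ φ₀ q φ)).re = (h j (Gm κ φ₀ q φ)).re → φ = Φ q

theorem pair_lemma (hZ : S_ZERO) (hG : S_GERM) (r : ℕ) (R κ φ₀ δ δ' ε : ℝ)
    (B h : Fin r → ℂ → ℂ) (J : Finset (Fin r)) (hR : 0 < R) (hδ' : 0 < δ') (hδ : δ' < δ)
    (hε : 0 < ε) (h0 : ∀ i, h i 0 = 0)
    (hd : ∀ i, ∀ s ∈ ball (0 : ℂ) R, HasDerivAt (h i) (B i s) s)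
    (hstrip : ∀ q ∈ Ioo 0 ε, ∀ φ ∈ Icc (φ₀ - δ) (φ₀ + δ), Gm κ φ₀ q φ ∈ ball (0 : ℂ) R \ {0})
    (hslope : ∀ i j, i ≠ j →
        (∀ q ∈ Ioo 0 ε, ∀ φ ∈ Icc (φ₀ - δ) (φ₀ + δ),
          (B i (Gm κ φ₀ q φ) * ((κ + Complex.I) * Gm κ φ₀ q φ)).re <
          (B j (Gm κ φ₀ q φ) * ((κ + Complex.I) * Gm κ φ₀ q φ)).re) ∨
        (∀ q ∈ Ioo 0 ε, ∀ φ ∈ Icc (φ₀ - δ) (φ₀ + δ),
          (B j (Gm κ φ₀ q φ) * ((κ + Complex.I) * Gm κ φ₀ q φ)).re <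
          (B i (Gm κ φ₀ q φ) * ((κ + Complex.I) * Gm κ φ₀ q φ)).re))
    (i j : Fin r) (hij : i ≠ j) :
    (∀ᶠ q in 𝓝[>] (0 : ℝ), BadAt h κ φ₀ δ' J i j q) ∨
      ∃ Φ : ℝ → ℝ, AnalyticAt ℝ Φ 0 ∧
        ∀ᶠ q in 𝓝[>] (0 : ℝ), GoodAt h κ φ₀ δ δ' J i j Φ q := by
  have hdiff : ∀ i, DifferentiableOn ℂ (h i) (ball 0 R) := fun i s hs =>
    (hd i s hs).differentiableAt.differentiableWithinAt
  have hder : ∀ q ∈ Ioo 0 ε, ∀ φ ∈ Icc (φ₀ - δ) (φ₀ + δ),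
      (deriv (fun s => h i s - h j s) (Gm κ φ₀ q φ) * ((κ + Complex.I) * Gm κ φ₀ q φ)).re =
      (B i (Gm κ φ₀ q φ) * ((κ + Complex.I) * Gm κ φ₀ q φ)).re -
      (B j (Gm κ φ₀ q φ) * ((κ + Complex.I) * Gm κ φ₀ q φ)).re := by
    intro q hq φ hφ
    have hm := (hstrip q hq φ hφ).1
    have hde : deriv (fun s => h i s - h j s) (Gm κ φ₀ q φ) =
        B i (Gm κ φ₀ q φ) - B j (Gm κ φ₀ q φ) := ((hd i _ hm).fun_sub (hd j _ hm)).deriv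
    rw [hde, sub_mul, Complex.sub_re]
  obtain ⟨ε', hε', hε'ε, hzero⟩ := hZ R κ φ₀ δ δ' ε (fun s => h i s - h j s) hR hδ' hδ hε
    ((hdiff i).sub (hdiff j)) (by simp [h0]) hstrip (by
      rcases hslope i j hij with hs | hs
      · right
        intro q hq φ hφ
        rw [hder q hq φ hφ]
        linarith [hs q hq φ hφ]
      · left
        intro q hq φ hφ
        rw [hder q hq φ hφ]
        linarith [hs q hq φ hφ])
  have hev : ∀ᶠ q in 𝓝[>] (0 : ℝ), q ∈ Ioo 0 ε' := Ioo_mem_nhdsGT hε'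
  rcases hzero with hz | ⟨Φ, hΦ, hΦ0, hz⟩
  · left
    filter_upwards [hev] with q hq φ hφ heq
    refine absurd ?_ (hz q hq φ hφ)
    rw [Complex.sub_re, heq, sub_self]
  · by_cases hgood : ∀ k ∈ J, ∀ᶠ q in 𝓝[>] (0 : ℝ),
        (h k (Gm κ φ₀ q (Φ q))).re ≤ (h i (Gm κ φ₀ q (Φ q))).re
    · right
      refine ⟨Φ, hΦ, ?_⟩
      have h2 : ∀ᶠ q in 𝓝[>] (0 : ℝ), ∀ k ∈ J,
          (h k (Gm κ φ₀ q (Φ q))).re ≤ (h i (Gm κ φ₀ q (Φ q))).re :=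
        (Filter.eventually_all_finset J).2 hgood
      filter_upwards [hev, h2] with q hq hq2
      obtain ⟨z1, z2, z3⟩ := hz q hq
      refine ⟨z1, ?_, hq2, ?_⟩
      · rw [Complex.sub_re] at z2
        linarith
      · intro φ hφ heq
        refine z3 φ hφ ?_
        rw [Complex.sub_re, heq, sub_self]
    · left
      push Not at hgood
      obtain ⟨k, hk, hk2⟩ := hgood
      have han : ∀ l, AnalyticAt ℝ (fun q : ℝ => (h l (Gm κ φ₀ q (Φ q))).re) 0 := by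
        intro l
        have a1 : AnalyticAt ℂ (h l) (Gm κ φ₀ 0 (Φ 0)) := by
          rw [Gm_zero]
          exact (hdiff l).analyticAt (ball_mem_nhds 0 hR)
        have a2 : AnalyticAt ℝ (fun q : ℝ => h l (Gm κ φ₀ q (Φ q))) 0 :=
          AnalyticAt.comp_of_eq (f := fun q : ℝ => Gm κ φ₀ q (Φ q))
            (a1.restrictScalars (𝕜 := ℝ)) (Gm_germ_analytic κ φ₀ Φ hΦ) rfl
        exact AnalyticAt.comp_of_eq (f := fun q : ℝ => h l (Gm κ φ₀ q (Φ q)))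
          (Complex.reCLM.analyticAt _) a2 rfl
      have hlt : ∀ᶠ q in 𝓝[>] (0 : ℝ),
          (h i (Gm κ φ₀ q (Φ q))).re < (h k (Gm κ φ₀ q (Φ q))).re := by
        rcases hG _ _ (han i) (han k) with h1 | ⟨c, m, hc, h1⟩ | ⟨c, m, hc, h1⟩
        · exfalso
          refine hk2 ?_
          filter_upwards [h1] with q hq
          exact not_lt.mpr hq.ge
        · exfalso
          refine hk2 ?_
          filter_upwards [h1, hev] with q hq hq0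
          have : 0 < c * q ^ m := mul_pos hc (pow_pos hq0.1 m)
          exact not_lt.mpr (by linarith)
        · filter_upwards [h1, hev] with q hq hq0
          have : 0 < c * q ^ m := mul_pos hc (pow_pos hq0.1 m)
          linarith
      filter_upwards [hev, hlt] with q hq hq2 φ hφ heq
      have := (hz q hq).2.2 φ hφ (by rw [Complex.sub_re, heq, sub_self])
      rw [this]
      exact ⟨k, hk, hq2⟩

/-! ## Points of the germs are points of non-differentiability -/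

theorem not_diff (r : ℕ) (R κ φ₀ δ ε : ℝ) (U : ℂ → ℝ)
    (B h : Fin r → ℂ → ℂ) (J : Finset (Fin r))
    (hd : ∀ i, ∀ s ∈ ball (0 : ℂ) R, HasDerivAt (h i) (B i s) s)
    (hstrip : ∀ q ∈ Ioo 0 ε, ∀ φ ∈ Icc (φ₀ - δ) (φ₀ + δ), Gm κ φ₀ q φ ∈ ball (0 : ℂ) R \ {0})
    (hslope : ∀ i j, i ≠ j →
        (∀ q ∈ Ioo 0 ε, ∀ φ ∈ Icc (φ₀ - δ) (φ₀ + δ),
          (B i (Gm κ φ₀ q φ) * ((κ + Complex.I) * Gm κ φ₀ q φ)).re <
          (B j (Gm κ φ₀ q φ) * ((κ + Complex.I) * Gm κ φ₀ q φ)).re) ∨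
        (∀ q ∈ Ioo 0 ε, ∀ φ ∈ Icc (φ₀ - δ) (φ₀ + δ),
          (B j (Gm κ φ₀ q φ) * ((κ + Complex.I) * Gm κ φ₀ q φ)).re <
          (B i (Gm κ φ₀ q φ) * ((κ + Complex.I) * Gm κ φ₀ q φ)).re))
    (hmax : ∀ q ∈ Ioo 0 ε, ∀ φ ∈ Icc (φ₀ - δ) (φ₀ + δ),
        (∃ i ∈ J, U (Gm κ φ₀ q φ) = U 0 + (h i (Gm κ φ₀ q φ)).re) ∧
        ∀ i ∈ J, U 0 + (h i (Gm κ φ₀ q φ)).re ≤ U (Gm κ φ₀ q φ))
    (i j : Fin r) (hi : i ∈ J) (hj : j ∈ J) (hij : i ≠ j) (q ψ : ℝ) (hq : q ∈ Ioo 0 ε)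
    (hψ : |ψ - φ₀| < δ) (heq : (h i (Gm κ φ₀ q ψ)).re = (h j (Gm κ φ₀ q ψ)).re)
    (hle : ∀ k ∈ J, (h k (Gm κ φ₀ q ψ)).re ≤ (h i (Gm κ φ₀ q ψ)).re) :
    ¬ DifferentiableAt ℝ U (Gm κ φ₀ q ψ) := by
  intro hdiff
  have hL := hdiff.hasFDerivAt
  set L := fderiv ℝ U (Gm κ φ₀ q ψ) with hLdef
  have habs := abs_lt.mp hψ
  have hψI : ψ ∈ Icc (φ₀ - δ) (φ₀ + δ) := ⟨by linarith, by linarith⟩
  have hnh : ∀ᶠ t in 𝓝 ψ, t ∈ Icc (φ₀ - δ) (φ₀ + δ) :=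
    Icc_mem_nhds (by linarith) (by linarith)
  have hball := (hstrip q hq ψ hψI).1
  have h1 : HasDerivAt (fun t : ℝ => U (Gm κ φ₀ q t))
      (L ((κ + Complex.I) * Gm κ φ₀ q ψ)) ψ := hL.comp_hasDerivAt ψ (hasDerivAt_Gm κ φ₀ q ψ)
  obtain ⟨l, hl, hUl⟩ := (hmax q hq ψ hψI).1
  have key : ∀ m ∈ J, (h m (Gm κ φ₀ q ψ)).re = (h i (Gm κ φ₀ q ψ)).re →
      L ((κ + Complex.I) * Gm κ φ₀ q ψ) = (B m (Gm κ φ₀ q ψ) *
        ((κ + Complex.I) * Gm κ φ₀ q ψ)).re := by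
    intro m hm hme
    have h2 : HasDerivAt (fun t : ℝ => h m (Gm κ φ₀ q t))
        (((κ + Complex.I) * Gm κ φ₀ q ψ) • B m (Gm κ φ₀ q ψ)) ψ :=
      HasDerivAt.scomp (h := fun t : ℝ => Gm κ φ₀ q t) ψ (hd m _ hball) (hasDerivAt_Gm κ φ₀ q ψ)
    have h3 : HasDerivAt (fun t : ℝ => (h m (Gm κ φ₀ q t)).re)
        ((((κ + Complex.I) * Gm κ φ₀ q ψ) • B m (Gm κ φ₀ q ψ))).re ψ :=
      Complex.reCLM.hasFDerivAt.comp_hasDerivAt ψ h2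
    have h4 : HasDerivAt (fun t : ℝ => U (Gm κ φ₀ q t) - (U 0 + (h m (Gm κ φ₀ q t)).re))
        (L ((κ + Complex.I) * Gm κ φ₀ q ψ) -
          ((((κ + Complex.I) * Gm κ φ₀ q ψ) • B m (Gm κ φ₀ q ψ))).re) ψ :=
      h1.sub (h3.const_add (U 0))
    have hmin : IsLocalMin (fun t : ℝ => U (Gm κ φ₀ q t) - (U 0 + (h m (Gm κ φ₀ q t)).re)) ψ := by
      filter_upwards [hnh] with t ht
      have e1 := (hmax q hq t ht).2 m hm
      have e2 := hle l hl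
      linarith
    have h5 := hmin.hasDerivAt_eq_zero h4
    rw [sub_eq_zero] at h5
    rw [h5, smul_eq_mul, mul_comm]
  have ei := key i hi rfl
  have ej := key j hj heq.symm
  rcases hslope i j hij with hs | hs
  · have := hs q hq ψ hψI
    linarith
  · have := hs q hq ψ hψI
    linarith

/-! ## Points of non-differentiability are points of agreement -/

theorem agree (r : ℕ) (R κ φ₀ δ ε : ℝ) (U : ℂ → ℝ)
    (B h : Fin r → ℂ → ℂ) (J : Finset (Fin r))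
    (hd : ∀ i, ∀ s ∈ ball (0 : ℂ) R, HasDerivAt (h i) (B i s) s)
    (hstrip : ∀ q ∈ Ioo 0 ε, ∀ φ ∈ Icc (φ₀ - δ) (φ₀ + δ), Gm κ φ₀ q φ ∈ ball (0 : ℂ) R \ {0})
    (hmax : ∀ q ∈ Ioo 0 ε, ∀ φ ∈ Icc (φ₀ - δ) (φ₀ + δ),
        (∃ i ∈ J, U (Gm κ φ₀ q φ) = U 0 + (h i (Gm κ φ₀ q φ)).re) ∧
        ∀ i ∈ J, U 0 + (h i (Gm κ φ₀ q φ)).re ≤ U (Gm κ φ₀ q φ))
    (q ψ : ℝ) (hq : q ∈ Ioo 0 ε) (hψ : |ψ - φ₀| < δ)
    (hnd : ¬ DifferentiableAt ℝ U (Gm κ φ₀ q ψ)) :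
    ∃ i ∈ J, ∃ j ∈ J, i ≠ j ∧ (h i (Gm κ φ₀ q ψ)).re = (h j (Gm κ φ₀ q ψ)).re ∧
      ∀ k ∈ J, (h k (Gm κ φ₀ q ψ)).re ≤ (h i (Gm κ φ₀ q ψ)).re := by
  by_contra hcon
  push Not at hcon
  have habs := abs_lt.mp hψ
  have hψI : ψ ∈ Icc (φ₀ - δ) (φ₀ + δ) := ⟨by linarith, by linarith⟩
  have hball := (hstrip q hq ψ hψI).1
  obtain ⟨⟨i, hi, hUi⟩, hle⟩ := hmax q hq ψ hψI
  have hle' : ∀ k ∈ J, (h k (Gm κ φ₀ q ψ)).re ≤ (h i (Gm κ φ₀ q ψ)).re := by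
    intro k hk
    have := hle k hk
    linarith
  have hlt : ∀ j ∈ J, j ≠ i → (h j (Gm κ φ₀ q ψ)).re < (h i (Gm κ φ₀ q ψ)).re := by
    intro j hj hji
    refine lt_of_le_of_ne (hle' j hj) ?_
    intro he
    obtain ⟨k, hk, hk2⟩ := hcon i hi j hj hji.symm he.symm
    exact absurd (hle' k hk) (not_le.mpr hk2)
  have hcont : ∀ l, ContinuousAt (fun s => (h l s).re) (Gm κ φ₀ q ψ) := fun l =>
    Complex.continuous_re.continuousAt.comp (hd l _ hball).continuousAt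
  have hev : ∀ᶠ s in 𝓝 (Gm κ φ₀ q ψ), ∀ j ∈ J, j ≠ i → (h j s).re < (h i s).re := by
    rw [Filter.eventually_all_finset]
    intro j hj
    by_cases hji : j = i
    · exact Filter.Eventually.of_forall fun s hs => absurd hji hs
    · filter_upwards [(hcont j).eventually_lt (hcont i) (hlt j hj hji)] with s hs _
      exact hs
  have hU : U =ᶠ[𝓝 (Gm κ φ₀ q ψ)] fun s => U 0 + (h i s).re := by
    filter_upwards [hev, strip_open κ φ₀ q ψ δ ε hq hψ] with s hs hs2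
    obtain ⟨q', hq', φ', hφ', rfl⟩ := hs2
    obtain ⟨⟨l, hl, hUl⟩, hle2⟩ := hmax q' hq' φ' hφ'
    by_cases hli : l = i
    · rw [← hli]; exact hUl
    · have e1 := hs l hl hli
      have e2 := hle2 i hi
      linarith
  apply hnd
  have hdi : DifferentiableAt ℝ (h i) (Gm κ φ₀ q ψ) :=
    (hd i _ hball).differentiableAt.restrictScalars ℝ
  have hre : DifferentiableAt ℝ (fun s => (h i s).re) (Gm κ φ₀ q ψ) :=
    Complex.reCLM.differentiableAt.comp (Gm κ φ₀ q ψ) hdi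
  exact (hre.const_add (U 0)).congr_of_eventuallyEq hU

/-! ## Main theorem -/

theorem main : S_MAXF → S_ZERO → S_GERM → S_STRIP := by
  classical
  intro hM hZ hG r R U B hR hU D hB φ₀
  obtain ⟨h, h0, hd⟩ := exists_prim r R B hB
  obtain ⟨κ, δ, ε, J, hδ, hδ1, hε, hstrip, hslope, hmax⟩ :=
    hM r R U B h hR hU D hB h0 hd φ₀
  have hpair := fun i j (hij : i ≠ j) => pair_lemma hZ hG r R κ φ₀ δ (δ / 2) ε B h J hR
    (by linarith) (by linarith) hε h0 hd hstrip hslope i j hij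
  let ι := {p : Fin r × Fin r // p.1 ∈ J ∧ p.2 ∈ J ∧ p.1 ≠ p.2 ∧
    ∃ Φ : ℝ → ℝ, AnalyticAt ℝ Φ 0 ∧
        ∀ᶠ q in 𝓝[>] (0 : ℝ), GoodAt h κ φ₀ δ (δ / 2) J p.1 p.2 Φ q}
  let Φ : ι → ℝ → ℝ := fun p => Classical.choose p.2.2.2.2
  have hΦ : ∀ p : ι, AnalyticAt ℝ (Φ p) 0 ∧
      ∀ᶠ q in 𝓝[>] (0 : ℝ), GoodAt h κ φ₀ δ (δ / 2) J p.1.1 p.1.2 (Φ p) q :=
    fun p => Classical.choose_spec p.2.2.2.2
  have hev1 : ∀ᶠ q in 𝓝[>] (0 : ℝ), ∀ p : ι, GoodAt h κ φ₀ δ (δ / 2) J p.1.1 p.1.2 (Φ p) q :=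
    Filter.eventually_all.2 fun p => (hΦ p).2
  have hev2 : ∀ᶠ q in 𝓝[>] (0 : ℝ), ∀ p : Fin r × Fin r, p.1 ≠ p.2 →
      (¬ ∃ Φ : ℝ → ℝ, AnalyticAt ℝ Φ 0 ∧
        ∀ᶠ q in 𝓝[>] (0 : ℝ), GoodAt h κ φ₀ δ (δ / 2) J p.1 p.2 Φ q) →
      BadAt h κ φ₀ (δ / 2) J p.1 p.2 q := by
    rw [Filter.eventually_all]
    intro p
    by_cases h1 : p.1 ≠ p.2
    · rcases hpair p.1 p.2 h1 with h2 | h2
      · filter_upwards [h2] with q hq _ _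
        exact hq
      · exact Filter.Eventually.of_forall fun q _ h3 => absurd h2 h3
    · exact Filter.Eventually.of_forall fun q h3 => absurd h3 h1
  have hev3 : ∀ᶠ q in 𝓝[>] (0 : ℝ), q ∈ Ioo 0 ε := Ioo_mem_nhdsGT hε
  obtain ⟨ε₁, hε₁, hsub⟩ := mem_nhdsGT_iff_exists_Ioo_subset.1 ((hev1.and hev2).and hev3)
  have hε₁0 : (0 : ℝ) < ε₁ := hε₁
  let e := Fintype.equivFin ι
  refine ⟨δ / 2, Fintype.card ι, fun k q => Gm κ φ₀ q (Φ (e.symm k) q), ε₁, by linarith, hε₁0,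
    ?_, ?_, ?_⟩
  · intro k
    refine ⟨Gm_germ_analytic κ φ₀ _ (hΦ (e.symm k)).1, Gm_zero _ _ _,
      Gm_germ_deriv κ φ₀ _ (hΦ (e.symm k)).1⟩
  · intro k q hq
    obtain ⟨⟨h1, h2⟩, h3⟩ := hsub hq
    set p := e.symm k with hp
    obtain ⟨g1, g2, g3, g4⟩ := h1 p
    have habs := abs_lt.mp g1
    refine ⟨hstrip q h3 _ ⟨by linarith, by linarith⟩, ?_⟩
    exact not_diff r R κ φ₀ δ ε U B h J hd hstrip hslope hmax p.1.1 p.1.2 p.2.1 p.2.2.1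
      p.2.2.2.1 q (Φ p q) h3 g1 g2 g3
  · intro ε' hε' hε'1
    refine ⟨ε' * Real.exp (-|κ|), by positivity, ?_⟩
    intro x φ hx hxρ hφ hnd
    have hb : -κ * (φ - φ₀) ≤ |κ| := by
      have h1 : -κ * (φ - φ₀) ≤ |κ| * |φ - φ₀| := by
        calc -κ * (φ - φ₀) ≤ |-κ * (φ - φ₀)| := le_abs_self _
          _ = |κ| * |φ - φ₀| := by rw [abs_mul, abs_neg]
      have h2 : |κ| * |φ - φ₀| ≤ |κ| * 1 :=
        mul_le_mul_of_nonneg_left (by linarith) (abs_nonneg κ)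
      linarith
    have hqpos : 0 < x * Real.exp (-κ * (φ - φ₀)) := by positivity
    have hqlt : x * Real.exp (-κ * (φ - φ₀)) < ε' := by
      calc x * Real.exp (-κ * (φ - φ₀)) ≤ x * Real.exp |κ| :=
            mul_le_mul_of_nonneg_left (Real.exp_le_exp.2 hb) hx.le
        _ < ε' * Real.exp (-|κ|) * Real.exp |κ| :=
            mul_lt_mul_of_pos_right hxρ (Real.exp_pos _)
        _ = ε' := by rw [mul_assoc, ← Real.exp_add]; simp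
    set q := x * Real.exp (-κ * (φ - φ₀)) with hqdef
    have hq1 : q ∈ Ioo 0 ε₁ := ⟨hqpos, lt_of_lt_of_le hqlt hε'1⟩
    obtain ⟨⟨h1, h2⟩, h3⟩ := hsub hq1
    have hs : Gm κ φ₀ q φ = (x : ℂ) * Complex.exp (Complex.I * φ) := Gm_polar κ φ₀ x φ
    rw [← hs] at hnd ⊢
    obtain ⟨i, hi, j, hj, hij, heq, hle⟩ := agree r R κ φ₀ δ ε U B h J hd hstrip hmax q φ h3
      (by linarith) hnd
    have habs := abs_lt.mp hφ
    have hφI : φ ∈ Icc (φ₀ - δ / 2) (φ₀ + δ / 2) := ⟨by linarith, by linarith⟩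
    by_cases hgood : ∃ Φ : ℝ → ℝ, AnalyticAt ℝ Φ 0 ∧
        ∀ᶠ q in 𝓝[>] (0 : ℝ), GoodAt h κ φ₀ δ (δ / 2) J i j Φ q
    · let p : ι := ⟨(i, j), hi, hj, hij, hgood⟩
      refine ⟨e p, q, ⟨hqpos, hqlt⟩, ?_⟩
      have hph : e.symm (e p) = p := e.symm_apply_apply p
      beta_reduce
      rw [hph]
      have := (h1 p).2.2.2 φ hφI heq
      rw [← this]
    · exfalso
      obtain ⟨k, hk, hk2⟩ := h2 (i, j) hij hgood φ hφI heq
      exact absurd (hle k hk) (not_le.mpr hk2)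

end

end Pool.Agent.W446.CQ.STRIP
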